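import Pool.Agent.Helper20.KP.StHB

/-!
# Project KP, module HB9: the final statement of chapter H
-/

set_option autoImplicit false

namespace Pool.Agent.Helper47.KP

open MeasureTheory Filter Pool.Agent.Helper52.KP Pool.Agent.Helper67.NO Pool.Agent.Helper20.KP
open scoped Topology

universe u

section

variable {g : Type u} [LieRing g] [LieAlgebra ℂ g] [FiniteDimensional ℂ g]

private theorem co_inj : Function.Injective (co : g → _) := by
  intro x y h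
  apply (Module.finBasis ℂ g).equivFun.injective
  exact h

private theorem co_norm_le (x : g) : ‖co x‖ ≤ size x := by
  have h0 : 0 ≤ size x := Finset.sum_nonneg fun i _ => norm_nonneg _
  rw [pi_norm_le_iff_of_nonneg h0]
  intro i
  exact Finset.single_le_sum (f := fun i => ‖co x i‖) (fun i _ => norm_nonneg _)
    (Finset.mem_univ i)

private theorem size_le (x : g) : size x ≤ Module.finrank ℂ g * ‖co x‖ := by
  have h : size x ≤ ∑ _i : Fin (Module.finrank ℂ g), ‖co x‖ :=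
    Finset.sum_le_sum fun i _ => norm_le_pi_norm (co x) i
  simpa using h

/-- the linear forms -/
private noncomputable def yy {m : ℕ}
    (Y : (Fin (Module.finrank ℂ g) → ℂ) →ₗ[ℂ] (Fin m → ℂ)) (i : Fin m) : g →ₗ[ℂ] ℂ :=
  (LinearMap.proj i) ∘ₗ Y ∘ₗ (Module.finBasis ℂ g).equivFun.toLinearMap

private theorem yy_apply {m : ℕ} (Y : (Fin (Module.finrank ℂ g) → ℂ) →ₗ[ℂ] (Fin m → ℂ))
    (i : Fin m) (x : g) : yy Y i x = Y (co x) i := rfl

/-- the bijection of the orbit and its image -/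
private noncomputable def bij {x₀ : g} (C : Ch x₀) : OO x₀ ≃ (mkOD C).O :=
  Equiv.ofBijective (fun x => ⟨co x.1, ⟨x.1, x.2, rfl⟩⟩) (by
    constructor
    · intro x y h
      have h1 : co x.1 = co y.1 := congrArg Subtype.val h
      exact Subtype.ext (co_inj h1)
    · rintro ⟨v, x, hx, rfl⟩
      exact ⟨⟨x, hx⟩, rfl⟩)

private theorem hol_map {x₀ : g} (C : Ch x₀) (k : ℕ)
    (h5 : (∀ f ∈ Hol x₀ k, HolO (mkOD C).O (tf f) ∧ HomO (mkOD C).O k (tf f) ∧
      ∀ x : OO x₀, tf f (co x.1) = f x) ∧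
      ∀ F, HolO (mkOD C).O F → HomO (mkOD C).O k F → (fun x : OO x₀ => F (co x.1)) ∈ Hol x₀ k) :
    Hol x₀ k = ((mkOD C).HK k).map
      ((LinearEquiv.funCongrLeft ℂ ℂ (bij C)) : ((mkOD C).O → ℂ) →ₗ[ℂ] (OO x₀ → ℂ)) := by
  ext f
  rw [Submodule.mem_map]
  constructor
  · intro hf
    obtain ⟨h1, h2, h3⟩ := h5.1 f hf
    refine ⟨fun v => tf f v.1, ⟨tf f, h1, h2, fun _ => rfl⟩, ?_⟩
    funext x
    exact h3 x
  · rintro ⟨f', ⟨F, h1, h2, h3⟩, rfl⟩
    have h4 := h5.2 F h1 h2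
    have h6 : (fun x : OO x₀ => F (co x.1)) =
        (LinearEquiv.funCongrLeft ℂ ℂ (bij C) : ((mkOD C).O → ℂ) →ₗ[ℂ] (OO x₀ → ℂ)) f' := by
      funext x
      exact (h3 (bij C x)).symm
    rw [← h6]
    exact h4

end

theorem hHB9 (hHGO : StHGO.{u}) (hHFX : StHFX) (hHBD : StHBD) (hHCS : StHCS) (hHCO : StHCO)
    (hHDM : StHDM) (hHB5 : StHB5.{u}) (hHB8 : StHB8.{u}) (hNUL : StNUL) : StHB9.{u} := by
  intro g _ _ _ _ x₀ hx₀ hnil C
  have hG := hHGO g x₀ hx₀ hnil C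
  obtain ⟨Y, Dc, rd, hFB⟩ := hHFX (mkOD C) hG
  have h5 := fun k => hHB5 g x₀ hx₀ hnil C k
  have hmap := fun k => hol_map C k (h5 k)
  obtain ⟨hfd, hdim⟩ := hHDM (mkOD C) hG Y Dc rd hFB
  have hOm : ∀ x : OO x₀, co x.1 ∈ (mkOD C).O := fun x => ⟨x.1, x.2, rfl⟩
  have hequiv : ∀ k, Nonempty ((mkOD C).HK k ≃ₗ[ℂ] Hol x₀ k) := by
    intro k
    rw [hmap k]
    exact ⟨(LinearEquiv.funCongrLeft ℂ ℂ (bij C)).submoduleMap ((mkOD C).HK k)⟩
  have hfr : ∀ k, Module.finrank ℂ (Hol x₀ k) = Module.finrank ℂ ((mkOD C).HK k) := by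
    intro k
    obtain ⟨e⟩ := hequiv k
    exact e.finrank_eq.symm
  refine ⟨yy (g := g) (m := C.m) Y, rd, ?_⟩
  refine ⟨?_, ?_, ?_, ?_, ?_, ?_, ?_, ?_⟩
  · -- bdd
    intro k f hf
    obtain ⟨h1, h2, h3⟩ := (h5 k).1 f hf
    obtain ⟨B, hB⟩ := hHBD (mkOD C) hG k (tf f) h1 h2
    refine ⟨|B|, fun x => ?_⟩
    have h4 := hB (co x.1) (hOm x)
    rw [h3 x] at h4
    have h6 := co_norm_le x.1
    calc ‖f x‖ ≤ B * ‖co x.1‖ ^ k := h4
      _ ≤ |B| * ‖co x.1‖ ^ k := mul_le_mul_of_nonneg_right (le_abs_self B) (by positivity)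
      _ ≤ |B| * size x.1 ^ k := by
        apply mul_le_mul_of_nonneg_left _ (abs_nonneg B)
        exact pow_le_pow_left₀ (norm_nonneg _) h6 k
  · -- reg
    intro k
    exact hHB8 g x₀ hx₀ hnil C k
  · -- fd
    intro k
    obtain ⟨e⟩ := hequiv k
    have := hfd k
    exact Module.Finite.equiv e
  · -- cst
    intro f hf
    obtain ⟨h1, h2, h3⟩ := (h5 0).1 f hf
    obtain ⟨c, hc⟩ := hHCS (mkOD C) hG (tf f) h1 h2
    refine ⟨c, fun x => ?_⟩
    rw [← h3 x]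
    exact hc _ (hOm x)
  · exact hFB.pos
  · -- ybd
    obtain ⟨a, ha, hab⟩ := hFB.pj.bd
    have hN : (0 : ℝ) < (Module.finrank ℂ g : ℝ) + 1 := by positivity
    refine ⟨a / ((Module.finrank ℂ g : ℝ) + 1), by positivity, fun x hx => ?_⟩
    have h1 := hab (co x) (subset_closure ⟨x, hx, rfl⟩)
    have h2 := size_le x
    have h3 : ‖Y (co x)‖ ≤ ∑ i, ‖Y (co x) i‖ := by
      have h0 : 0 ≤ ∑ i, ‖Y (co x) i‖ := Finset.sum_nonneg fun i _ => norm_nonneg _
      rw [pi_norm_le_iff_of_nonneg h0]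
      intro i
      exact Finset.single_le_sum (f := fun i => ‖Y (co x) i‖) (fun i _ => norm_nonneg _)
        (Finset.mem_univ i)
    have h4 : (Module.finrank ℂ g : ℝ) * ‖co x‖ ≤ ((Module.finrank ℂ g : ℝ) + 1) * ‖co x‖ := by
      have := norm_nonneg (co x)
      nlinarith
    have h5 : a / ((Module.finrank ℂ g : ℝ) + 1) * size x ≤ a * ‖co x‖ := by
      rw [div_mul_eq_mul_div, div_le_iff₀ hN]
      nlinarith
    calc a / ((Module.finrank ℂ g : ℝ) + 1) * size x ≤ a * ‖co x‖ := h5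
      _ ≤ ‖Y (co x)‖ := h1
      _ ≤ ∑ i, ‖Y (co x) i‖ := h3
  · -- card
    have hnull := hNUL (mkOD C).m Dc hFB.D0
    have hae : ∀ᵐ v : Fin C.m → ℂ, ev Dc v ≠ 0 := by
      rw [ae_iff]
      simp only [not_not]
      exact hnull
    filter_upwards [hae] with v hv
    have hF : HolO (mkOD C).O (fun _ => (0 : ℂ)) := fun p Ω γ _ _ _ => differentiableOn_const 0
    have h1 := ((hHCO (mkOD C) hG Y Dc rd hFB _ hF).2.1 v hv).2.1
    rw [← h1]
    have h2 : (mkOD C).fb Y v = co '' {x : g | Orb x₀ x ∧ ∀ i, yy (g := g) (m := C.m) Y i x = v i} := by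
      ext w
      constructor
      · rintro ⟨⟨x, hx, rfl⟩, hw⟩
        refine ⟨x, ⟨hx, fun i => ?_⟩, rfl⟩
        exact congrFun hw i
      · rintro ⟨x, ⟨hx, hi⟩, rfl⟩
        refine ⟨⟨x, hx, rfl⟩, ?_⟩
        funext i
        exact hi i
    rw [h2]
    exact (Set.ncard_image_of_injective _ co_inj).symm
  · -- dim
    simp_rw [hfr]
    exact hdim

end Pool.Agent.Helper47.KP
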