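import Pool.Agent.Helper93.KP.St

/-! # Project KP (MP_77e955_nt): module CLS (Chinese remainder theorem for two sets of primes) -/

set_option autoImplicit false

namespace Pool.Agent.Helper47.KP

open Finset Filter Topology Pool.Agent.Helper93.KP

private lemma one_prime (k n₀ n p : ℕ) (hp : p.Prime) (h0 : (p : ℤ) ∣ gk n₀ k) :
    (p : ℤ) ∣ gk n k ↔ (p : ℤ) ∣ (n : ℤ) - (n₀ : ℤ) := by
  have hpI : Prime (p : ℤ) := Nat.prime_iff_prime_int.mp hp
  have hk : ¬ (p : ℤ) ∣ (k : ℤ) := by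
    intro hk
    unfold gk at h0
    have h1 : (p : ℤ) ∣ 1 := by
      have e : (1 : ℤ) = (k : ℤ) * ((n₀ : ℤ) - k) - ((k : ℤ) * n₀ - (k : ℤ) ^ 2 - 1) := by ring
      rw [e]
      exact dvd_sub (dvd_mul_of_dvd_left hk _) h0
    exact hpI.not_dvd_one h1
  have e : gk n k = gk n₀ k + (k : ℤ) * ((n : ℤ) - n₀) := by
    unfold gk
    ring
  rw [e, dvd_add_right h0, hpI.dvd_mul]
  constructor
  · rintro (h | h)
    · exact absurd h hk
    · exact h
  · exact Or.inr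

theorem hCLS : StCLS := by
  intro D D' k k' hP
  by_cases hn : ∃ n₀ : ℕ, (∀ p ∈ D, (p : ℤ) ∣ gk n₀ k) ∧ (∀ p ∈ D', (p : ℤ) ∣ gk n₀ k')
  · right
    obtain ⟨n₀, h1, h2⟩ := hn
    have hpos : 0 < ∏ p ∈ D ∪ D', p := Finset.prod_pos fun p hp => (hP p hp).pos
    refine ⟨n₀ % ∏ p ∈ D ∪ D', p, Nat.mod_lt _ hpos, ?_⟩
    intro n
    have e1 : ((∀ p ∈ D, (p : ℤ) ∣ gk n k) ∧ (∀ p ∈ D', (p : ℤ) ∣ gk n k')) ↔
        ∀ p ∈ D ∪ D', (p : ℤ) ∣ (n : ℤ) - (n₀ : ℤ) := by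
      constructor
      · rintro ⟨g1, g2⟩ p hp
        rcases Finset.mem_union.mp hp with hpD | hpD
        · exact (one_prime k n₀ n p (hP p hp) (h1 p hpD)).mp (g1 p hpD)
        · exact (one_prime k' n₀ n p (hP p hp) (h2 p hpD)).mp (g2 p hpD)
      · intro g
        refine ⟨fun p hpD => ?_, fun p hpD => ?_⟩
        · have hp : p ∈ D ∪ D' := Finset.mem_union_left _ hpD
          exact (one_prime k n₀ n p (hP p hp) (h1 p hpD)).mpr (g p hp)
        · have hp : p ∈ D ∪ D' := Finset.mem_union_right _ hpD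
          exact (one_prime k' n₀ n p (hP p hp) (h2 p hpD)).mpr (g p hp)
    have e2 : (∀ p ∈ D ∪ D', (p : ℤ) ∣ (n : ℤ) - (n₀ : ℤ)) ↔
        ((∏ p ∈ D ∪ D', p : ℕ) : ℤ) ∣ (n : ℤ) - (n₀ : ℤ) := by
      constructor
      · intro g
        rw [Int.natCast_dvd]
        exact Finset.prod_primes_dvd _ (fun p hp => (hP p hp).prime)
          (fun p hp => Int.natCast_dvd.mp (g p hp))
      · intro g p hp
        exact dvd_trans (Int.natCast_dvd_natCast.mpr (Finset.dvd_prod_of_mem (fun p => p) hp)) g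
    rw [e1, e2, ← Nat.modEq_iff_dvd]
    constructor
    · intro h
      exact h.symm
    · intro h
      exact (show n ≡ n₀ [MOD _] from h).symm
  · left
    intro n h
    exact hn ⟨n, h⟩

end Pool.Agent.Helper47.KP
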