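import Pool.Agent.Helper85.KP.StE

/-!
# Project KP, module EUP: upper bound of Bergman functions on compact sets
-/

set_option autoImplicit false

namespace Pool.Agent.Helper47.KP

open MeasureTheory Filter Pool.Agent.Helper52.KP Pool.Agent.Helper85.KP
open scoped ContDiff ComplexOrder Topology

private theorem cont_ev {m : ℕ} (P : MvPolynomial (Fin m) ℂ) : Continuous fun z => ev P z :=
  MvPolynomial.continuous_eval P

private theorem diff_ev {m : ℕ} (P : MvPolynomial (Fin m) ℂ) :
    Differentiable ℂ fun z => ev P z := by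
  induction P using MvPolynomial.induction_on with
  | C a => simp [ev]
  | add p q hp hq =>
    have h : (fun z => ev (p + q) z) = fun z => ev p z + ev q z := by
      funext z; simp [ev]
    rw [h]
    exact hp.add hq
  | mul_X p i hp =>
    have h : (fun z => ev (p * MvPolynomial.X i) z) = fun z => ev p z * z i := by
      funext z; simp [ev]
    rw [h]
    exact hp.mul (differentiable_apply i)

private theorem isOpen_U (C : Cone) : IsOpen C.U :=
  isOpen_ne.preimage (cont_ev C.Δ)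

private theorem u_pos {C : Cone} (h : Good C) {z : Fin C.m → ℂ} (hz : z ∈ C.U) : 0 < C.u z := by
  obtain ⟨a, b, ha, hab⟩ := h.ubd
  exact lt_of_lt_of_le (mul_pos ha (h.Xpos z hz)) (hab z hz).1

open Classical in
private noncomputable def psU (C : Cone) : (Fin C.m → ℂ) → ℝ := C.U.piecewise C.u (fun _ => 1)

open Classical in
private theorem psU_eq {C : Cone} {z : Fin C.m → ℂ} (hz : z ∈ C.U) : psU C z = C.u z := by
  unfold psU
  exact Set.piecewise_eq_of_mem _ _ _ hz

open Classical in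
private theorem meas_psU {C : Cone} (h : Good C) : Measurable (psU C) := by
  unfold psU
  exact ContinuousOn.measurable_piecewise h.usm.continuousOn continuousOn_const
    (isOpen_U C).measurableSet

private noncomputable def gg (C : Cone) (D : ℕ) (f : MvPolynomial (Fin C.m) ℂ)
    (z : Fin C.m → ℂ) : ENNReal := ENNReal.ofReal (‖ev f z‖ ^ 2 / psU C z ^ (2 * D))

private theorem meas_gg {C : Cone} (h : Good C) (D : ℕ) (f : MvPolynomial (Fin C.m) ℂ) :
    Measurable (gg C D f) := by
  unfold gg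
  exact (((cont_ev f).norm.measurable.pow_const 2).div ((meas_psU h).pow_const _)).ennreal_ofReal

private theorem m_pos {C : Cone} (h : Good C) : 2 ≤ C.m := by
  have := h.hm
  have := h.hn
  omega

private theorem gg_fin {C : Cone} (h : Good C) (hV : StVOL) (D : ℕ)
    (f : MvPolynomial (Fin C.m) ℂ) (hf : f ∈ C.R D) :
    ∫⁻ z in {z | z ∈ C.U ∧ psU C z < 1}, gg C D f z ∂C.nu ≠ ⊤ := by
  obtain ⟨B, hB⟩ := h.bdd D f hf
  obtain ⟨a, b, ha, hab⟩ := h.ubd
  have hle : ∀ z ∈ {z | z ∈ C.U ∧ psU C z < 1}, gg C D f z ≤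
      ENNReal.ofReal ((|B| / a ^ D) ^ 2) := by
    intro z hz
    have hzU : z ∈ C.U := hz.1
    unfold gg
    rw [psU_eq hzU]
    apply ENNReal.ofReal_le_ofReal
    have hu := u_pos h hzU
    have hsz := h.Xpos z hzU
    have h1 : C.sz z ≤ C.u z / a := by
      rw [le_div_iff₀ ha]; linarith [(hab z hzU).1]
    have h2 : ‖ev f z‖ ≤ |B| * (C.u z / a) ^ D := by
      calc ‖ev f z‖ ≤ B * C.sz z ^ D := hB z
        _ ≤ |B| * C.sz z ^ D := by
            apply mul_le_mul_of_nonneg_right (le_abs_self B) (by positivity)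
        _ ≤ |B| * (C.u z / a) ^ D := by gcongr
    have h3 : ‖ev f z‖ ^ 2 ≤ (|B| * (C.u z / a) ^ D) ^ 2 :=
      pow_le_pow_left₀ (norm_nonneg _) h2 2
    rw [div_le_iff₀ (by positivity)]
    refine h3.trans (le_of_eq ?_)
    rw [div_pow, div_pow, mul_pow, div_pow, ← pow_mul, ← pow_mul, mul_comm D 2]
    field_simp
  have hset : {z | z ∈ C.U ∧ psU C z < 1} = {z | z ∈ C.U ∧ C.u z < 1} := by
    ext z
    constructor
    · rintro ⟨h1, h2⟩
      rw [psU_eq h1] at h2
      exact ⟨h1, h2⟩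
    · rintro ⟨h1, h2⟩
      refine ⟨h1, ?_⟩
      rw [psU_eq h1]
      exact h2
  have hms : MeasurableSet {z | z ∈ C.U ∧ psU C z < 1} :=
    (isOpen_U C).measurableSet.inter (measurableSet_lt (meas_psU h) measurable_const)
  refine ne_of_lt ?_
  calc ∫⁻ z in {z | z ∈ C.U ∧ psU C z < 1}, gg C D f z ∂C.nu ≤
      ∫⁻ _z in {z | z ∈ C.U ∧ psU C z < 1}, ENNReal.ofReal ((|B| / a ^ D) ^ 2) ∂C.nu :=
        setLIntegral_mono' hms hle
    _ = ENNReal.ofReal ((|B| / a ^ D) ^ 2) * C.nu {z | z ∈ C.U ∧ psU C z < 1} :=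
        setLIntegral_const _ _
    _ < ⊤ := by
      rw [hset, hV C h]
      exact ENNReal.mul_lt_top ENNReal.ofReal_lt_top ENNReal.ofReal_lt_top

private theorem int_gamma (m D : ℕ) (hm : 1 ≤ m) :
    ∫⁻ s in Set.Ioi (0 : ℝ), ENNReal.ofReal (s ^ (2 * D) * Real.exp (-s)) *
      ENNReal.ofReal (((m : ℝ) + 0) / 1 * s ^ (((m : ℝ) + 0) / 1 - 1)) =
    ENNReal.ofReal (m * (2 * D + m - 1).factorial) := by
  have hG : ((2 * D + m - 1).factorial : ℝ) = Real.Gamma (2 * D + m) := by
    rw [← Real.Gamma_nat_eq_factorial]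
    congr 1
    have : 1 ≤ 2 * D + m := by omega
    push_cast [Nat.cast_sub this]
    ring
  have hpos : (0 : ℝ) < 2 * D + m := by
    have h1 : (1 : ℝ) ≤ m := by exact_mod_cast hm
    positivity
  have hconv := Real.GammaIntegral_convergent hpos
  have hval := Real.Gamma_eq_integral hpos
  rw [hG, hval, ← integral_const_mul, ofReal_integral_eq_lintegral_ofReal]
  · refine setLIntegral_congr_fun measurableSet_Ioi ?_
    intro s hs
    have hs0 : (0 : ℝ) < s := hs
    simp only
    rw [← ENNReal.ofReal_mul (by positivity)]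
    congr 1
    have h1 : s ^ ((2 * (D : ℝ) + m) - 1) = s ^ (2 * D) * s ^ ((m : ℝ) - 1) := by
      rw [← Real.rpow_natCast s (2 * D), ← Real.rpow_add hs0]
      congr 1
      push_cast
      ring
    rw [h1, add_zero, div_one]
    ring
  · exact hconv.const_mul _
  · refine (ae_restrict_iff' measurableSet_Ioi).2 (Eventually.of_forall fun s hs => ?_)
    have hs0 : (0 : ℝ) < s := hs
    simp only [Pi.zero_apply]
    positivity

private theorem int_fin (m : ℕ) (hm : 2 ≤ m) (R : ℝ) (hR : 0 < R) :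
    ∃ c : ℝ, 0 ≤ c ∧ ∫⁻ s in Set.Ioi (0 : ℝ), (Set.Iio R).indicator (fun _ => (1 : ENNReal)) s *
      ENNReal.ofReal (((m : ℝ) + 0) / 1 * s ^ (((m : ℝ) + 0) / 1 - 1)) ≤ ENNReal.ofReal c := by
  refine ⟨(m * R ^ ((m : ℝ) - 1)) * R, by positivity, ?_⟩
  have hm' : (2 : ℝ) ≤ m := by exact_mod_cast hm
  have h1 : ∀ s ∈ Set.Ioi (0 : ℝ), (Set.Iio R).indicator (fun _ => (1 : ENNReal)) s *
      ENNReal.ofReal (((m : ℝ) + 0) / 1 * s ^ (((m : ℝ) + 0) / 1 - 1)) ≤
      (Set.Iio R).indicator (fun _ => ENNReal.ofReal (m * R ^ ((m : ℝ) - 1))) s := by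
    intro s hs
    have hs0 : (0 : ℝ) < s := hs
    by_cases hsR : s < R
    · rw [Set.indicator_of_mem (show s ∈ Set.Iio R from hsR),
        Set.indicator_of_mem (show s ∈ Set.Iio R from hsR), one_mul, add_zero, div_one]
      apply ENNReal.ofReal_le_ofReal
      have : s ^ ((m : ℝ) - 1) ≤ R ^ ((m : ℝ) - 1) :=
        Real.rpow_le_rpow hs0.le hsR.le (by linarith)
      gcongr
    · rw [Set.indicator_of_notMem (show s ∉ Set.Iio R from hsR), zero_mul]
      exact bot_le
  refine (setLIntegral_mono' measurableSet_Ioi h1).trans ?_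
  have h2 : Set.Iio R ∩ Set.Ioi 0 = Set.Ioo 0 R := by
    ext s; constructor
    · rintro ⟨h1, h2⟩; exact ⟨h2, h1⟩
    · rintro ⟨h1, h2⟩; exact ⟨h2, h1⟩
  rw [lintegral_indicator measurableSet_Iio, Measure.restrict_restrict measurableSet_Iio,
    setLIntegral_const, h2, Real.volume_Ioo, sub_zero, ← ENNReal.ofReal_mul (by positivity)]

private theorem key {C : Cone} (h : Good C) (hS : StSCA) (hM : StMOM) (hV : StVOL) (D : ℕ)
    (f : MvPolynomial (Fin C.m) ℂ) (hf : f ∈ C.R D) (R c : ℝ) (hc0 : 0 ≤ c)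
    (hc : ∫⁻ s in Set.Ioi (0 : ℝ), (Set.Iio R).indicator (fun _ => (1 : ENNReal)) s *
      ENNReal.ofReal (((C.m : ℝ) + 0) / 1 * s ^ (((C.m : ℝ) + 0) / 1 - 1)) ≤ ENNReal.ofReal c) :
    ∃ G : ℝ, 0 ≤ G ∧
      nrm C.U C.u (fun z => ev f z * ev C.J z) = C.m * (2 * D + C.m - 1).factorial * G ∧
      ∫⁻ z in {z | z ∈ C.U ∧ psU C z < R}, gg C D f z ∂C.nu ≤ ENNReal.ofReal (c * G) := by
  have hm2 := m_pos h
  have hmr : (2 : ℝ) ≤ C.m := by exact_mod_cast hm2
  have hfin := gg_fin h hV D f hf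
  obtain ⟨G, hG⟩ : ∃ G, G = (∫⁻ z in {z | z ∈ C.U ∧ psU C z < 1}, gg C D f z ∂C.nu).toReal :=
    ⟨_, rfl⟩
  have hG0 : 0 ≤ G := by rw [hG]; exact ENNReal.toReal_nonneg
  have hGE : ∫⁻ z in {z | z ∈ C.U ∧ psU C z < 1}, gg C D f z ∂C.nu = ENNReal.ofReal G := by
    rw [hG, ENNReal.ofReal_toReal hfin]
  have hsca := hS C h 1 0 one_pos (by linarith) (psU C) (gg C D f) (meas_psU h) (meas_gg h D f)
    (by
      intro z hz
      refine ⟨?_, ?_⟩
      · rw [psU_eq hz]; exact u_pos h hz
      · intro c hc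
        have hz' := h.sclU c hc z hz
        have hcn : 0 < ‖c‖ := norm_pos_iff.2 hc
        refine ⟨?_, ?_⟩
        · rw [psU_eq hz', psU_eq hz, h.uhom z hz c hc, Real.rpow_one]
        · unfold gg
          rw [psU_eq hz', psU_eq hz, h.uhom z hz c hc, Real.rpow_zero, ENNReal.ofReal_one,
            one_mul, h.hom D f hf c z]
          congr 1
          rw [norm_mul, norm_pow, mul_pow, mul_pow, ← pow_mul, mul_comm D 2]
          have : (‖c‖ ^ (2 * D)) ≠ 0 := by positivity
          rw [mul_div_mul_left _ _ this])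
    hfin
  have hUm : MeasurableSet C.U := (isOpen_U C).measurableSet
  have hden : Measurable fun z : Fin C.m → ℂ => ENNReal.ofReal (‖ev C.J z‖ ^ 2) :=
    ((cont_ev C.J).norm.measurable.pow_const 2).ennreal_ofReal
  refine ⟨G, hG0, ?_, ?_⟩
  · have h1 := hsca (fun s => ENNReal.ofReal (s ^ (2 * D) * Real.exp (-s)))
      (((measurable_id.pow_const _).mul (Real.measurable_exp.comp measurable_neg)).ennreal_ofReal)
    rw [int_gamma C.m D (by omega), hGE] at h1
    have hL2 := ((hM C h).2.2.2 D f hf).2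
    have hnn : ∀ z, 0 ≤ ‖ev f z * ev C.J z‖ ^ 2 * Real.exp (-C.u z) := fun z => by positivity
    have h2 : ENNReal.ofReal (nrm C.U C.u (fun z => ev f z * ev C.J z)) =
        ENNReal.ofReal (C.m * (2 * D + C.m - 1).factorial * G) := by
      rw [ENNReal.ofReal_mul (by positivity), ← h1]
      unfold nrm
      rw [ofReal_integral_eq_lintegral_ofReal hL2 (Eventually.of_forall hnn)]
      unfold Cone.nu
      rw [setLIntegral_withDensity_eq_setLIntegral_mul _ hden _ hUm]
      · refine setLIntegral_congr_fun hUm ?_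
        intro z hz
        simp only [Pi.mul_apply]
        unfold gg
        rw [psU_eq hz]
        have hu := u_pos h hz
        rw [← ENNReal.ofReal_mul (by positivity), ← ENNReal.ofReal_mul (by positivity)]
        congr 1
        rw [norm_mul, mul_pow]
        field_simp
      · exact ((((meas_psU h).pow_const _).mul
          (Real.measurable_exp.comp (meas_psU h).neg)).ennreal_ofReal).mul (meas_gg h D f)
    have h3 := congrArg ENNReal.toReal h2
    rw [ENNReal.toReal_ofReal, ENNReal.toReal_ofReal (by positivity)] at h3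
    · exact h3
    · unfold nrm
      exact integral_nonneg hnn
  · have h1 := hsca ((Set.Iio R).indicator (fun _ => (1 : ENNReal)))
      (measurable_const.indicator measurableSet_Iio)
    have hmR : MeasurableSet {z | psU C z < R} := measurableSet_lt (meas_psU h) measurable_const
    have h2 : ∫⁻ z in {z | z ∈ C.U ∧ psU C z < R}, gg C D f z ∂C.nu =
        ∫⁻ z in C.U, (Set.Iio R).indicator (fun _ => (1 : ENNReal)) (psU C z) *
          gg C D f z ∂C.nu := by
      have h3 : {z | z ∈ C.U ∧ psU C z < R} = {z | psU C z < R} ∩ C.U := by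
        ext z; constructor
        · rintro ⟨h1, h2⟩; exact ⟨h2, h1⟩
        · rintro ⟨h1, h2⟩; exact ⟨h2, h1⟩
      rw [h3, ← Measure.restrict_restrict hmR, ← lintegral_indicator hmR]
      refine lintegral_congr fun z => ?_
      by_cases hz : psU C z < R
      · rw [Set.indicator_of_mem (show z ∈ {z | psU C z < R} from hz),
          Set.indicator_of_mem (show psU C z ∈ Set.Iio R from hz), one_mul]
      · rw [Set.indicator_of_notMem (show z ∉ {z | psU C z < R} from hz),
          Set.indicator_of_notMem (show psU C z ∉ Set.Iio R from hz), zero_mul]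
    rw [h2, h1, hGE, ENNReal.ofReal_mul hc0]
    gcongr

private theorem prod_int {C : Cone} (h : Good C) (hM : StMOM) (D : ℕ)
    (f g : MvPolynomial (Fin C.m) ℂ) (hf : f ∈ C.R D) (hg : g ∈ C.R D) :
    IntegrableOn (fun z => (ev f z * ev C.J z) * star (ev g z * ev C.J z) *
      (Real.exp (-C.u z) : ℂ)) C.U := by
  have hf2 := ((hM C h).2.2.2 D f hf).2
  have hg2 := ((hM C h).2.2.2 D g hg).2
  have hUm : MeasurableSet C.U := (isOpen_U C).measurableSet
  refine Integrable.mono' (hf2.add hg2) ?_ (Eventually.of_forall fun z => ?_)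
  · refine ContinuousOn.aestronglyMeasurable ?_ hUm
    have h1 : ContinuousOn C.u C.U := h.usm.continuousOn
    have h2 : ContinuousOn (fun z => (Real.exp (-C.u z) : ℂ)) C.U :=
      Complex.continuous_ofReal.comp_continuousOn (Real.continuous_exp.comp_continuousOn h1.neg)
    have h3 : Continuous fun z : Fin C.m → ℂ => (ev f z * ev C.J z) * star (ev g z * ev C.J z) :=
      ((cont_ev f).mul (cont_ev C.J)).mul ((cont_ev g).mul (cont_ev C.J)).star
    exact h3.continuousOn.mul h2
  · simp only [Pi.add_apply]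
    rw [norm_mul, norm_mul, norm_star]
    have h1 : ‖(Real.exp (-C.u z) : ℂ)‖ = Real.exp (-C.u z) := by
      rw [Complex.norm_real, Real.norm_of_nonneg (Real.exp_pos _).le]
    rw [h1]
    have h2 : ‖ev f z * ev C.J z‖ * ‖ev g z * ev C.J z‖ ≤
        ‖ev f z * ev C.J z‖ ^ 2 + ‖ev g z * ev C.J z‖ ^ 2 := by
      nlinarith [sq_nonneg (‖ev f z * ev C.J z‖ - ‖ev g z * ev C.J z‖),
        mul_nonneg (norm_nonneg (ev f z * ev C.J z)) (norm_nonneg (ev g z * ev C.J z))]
    calc ‖ev f z * ev C.J z‖ * ‖ev g z * ev C.J z‖ * Real.exp (-C.u z) ≤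
        (‖ev f z * ev C.J z‖ ^ 2 + ‖ev g z * ev C.J z‖ ^ 2) * Real.exp (-C.u z) := by gcongr
      _ = _ := by ring

private theorem extremal {C : Cone} (h : Good C) (hM : StMOM) (D N : ℕ)
    (s : Fin N → MvPolynomial (Fin C.m) ℂ) (hs : ONB C D s) (c : Fin N → ℂ) :
    (∑ j, MvPolynomial.C (c j) * s j) ∈ C.R D ∧
    nrm C.U C.u (fun z => ev (∑ j, MvPolynomial.C (c j) * s j) z * ev C.J z) =
      ∑ j, ‖c j‖ ^ 2 := by
  have hmem : ∀ j, s j ∈ C.R D := fun j => by
    rw [← hs.span]; exact Submodule.subset_span ⟨j, rfl⟩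
  refine ⟨?_, ?_⟩
  · refine Submodule.sum_mem _ fun j _ => ?_
    rw [← MvPolynomial.smul_eq_C_mul]
    exact Submodule.smul_mem _ _ (hmem j)
  · have h1 : ∀ z, ev (∑ j, MvPolynomial.C (c j) * s j) z = ∑ j, c j * ev (s j) z := by
      intro z
      simp [ev, map_sum]
    have h2 : ((nrm C.U C.u (fun z => ev (∑ j, MvPolynomial.C (c j) * s j) z * ev C.J z) : ℝ) : ℂ)
        = ∑ i, ∑ j, (c i * star (c j)) * inn C.U C.u (fun z => ev (s i) z * ev C.J z)
          (fun z => ev (s j) z * ev C.J z) := by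
      unfold nrm inn
      rw [← integral_complex_ofReal]
      have h3 : ∀ z, ((‖ev (∑ j, MvPolynomial.C (c j) * s j) z * ev C.J z‖ ^ 2 *
          Real.exp (-C.u z) : ℝ) : ℂ) = ∑ i, ∑ j, (c i * star (c j)) *
            ((ev (s i) z * ev C.J z) * star (ev (s j) z * ev C.J z) *
              (Real.exp (-C.u z) : ℂ)) := by
        intro z
        have h4 : ((‖ev (∑ j, MvPolynomial.C (c j) * s j) z * ev C.J z‖ ^ 2 : ℝ) : ℂ) =
            (ev (∑ j, MvPolynomial.C (c j) * s j) z * ev C.J z) *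
              star (ev (∑ j, MvPolynomial.C (c j) * s j) z * ev C.J z) := by
          rw [Complex.star_def, Complex.mul_conj, Complex.normSq_eq_norm_sq]
        rw [Complex.ofReal_mul, h4, h1, star_mul', star_sum, Finset.sum_mul, Finset.sum_mul,
          Finset.sum_mul]
        refine Finset.sum_congr rfl fun i _ => ?_
        rw [Finset.sum_mul, Finset.mul_sum, Finset.sum_mul]
        refine Finset.sum_congr rfl fun j _ => ?_
        rw [star_mul', star_mul']
        ring
      simp_rw [h3]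
      rw [integral_finsetSum]
      · refine Finset.sum_congr rfl fun i _ => ?_
        rw [integral_finsetSum]
        · refine Finset.sum_congr rfl fun j _ => ?_
          rw [integral_const_mul]
        · intro j _
          exact (prod_int h hM D (s i) (s j) (hmem i) (hmem j)).const_mul _
      · intro i _
        refine integrable_finsetSum _ fun j _ => ?_
        exact (prod_int h hM D (s i) (s j) (hmem i) (hmem j)).const_mul _
    have h5 : ∑ i, ∑ j, (c i * star (c j)) * inn C.U C.u (fun z => ev (s i) z * ev C.J z)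
          (fun z => ev (s j) z * ev C.J z) = ((∑ j, ‖c j‖ ^ 2 : ℝ) : ℂ) := by
      rw [Complex.ofReal_sum]
      refine Finset.sum_congr rfl fun i _ => ?_
      rw [Finset.sum_eq_single i]
      · rw [hs.on i i, if_pos rfl, mul_one, Complex.star_def, Complex.mul_conj,
          Complex.normSq_eq_norm_sq]
      · intro j _ hj
        rw [hs.on i j, if_neg (Ne.symm hj), mul_zero]
      · intro hi
        exact absurd (Finset.mem_univ i) hi
    rw [h5] at h2
    exact_mod_cast h2

theorem hEUP : StSCA → StSUP → StMOM → StVOL → StEUP := by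
  intro hS hSup hM hV C h K hKU hK δ hδ
  rcases K.eq_empty_or_nonempty with hKe | hKne
  · refine Eventually.of_forall fun D N s _ z hz => ?_
    rw [hKe] at hz
    exact absurd hz (Set.notMem_empty z)
  have hm2 := m_pos h
  have hm0 : (0 : ℝ) < C.m := by exact_mod_cast (by omega : 0 < C.m)
  obtain ⟨ρ₀, hρ₀, hthick⟩ := hK.exists_cthickening_subset_open (isOpen_U C) hKU
  obtain ⟨K', hK'⟩ : ∃ K', K' = Metric.cthickening ρ₀ K := ⟨_, rfl⟩
  rw [← hK'] at hthick
  have hK'c : IsCompact K' := by rw [hK']; exact hK.cthickening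
  have hKK' : K ⊆ K' := by rw [hK']; exact Metric.self_subset_cthickening K
  have hucont : ContinuousOn C.u K' := h.usm.continuousOn.mono hthick
  have hlcont : ContinuousOn (fun z => Real.log (C.u z)) K' :=
    hucont.log fun z hz => (u_pos h (hthick hz)).ne'
  have hunif := hK'c.uniformContinuousOn_of_continuous hlcont
  rw [Metric.uniformContinuousOn_iff] at hunif
  obtain ⟨ρ₁, hρ₁, hlog⟩ := hunif (δ / 8) (by positivity)
  obtain ⟨ρ, hρdef⟩ : ∃ ρ, ρ = min ρ₀ ρ₁ := ⟨_, rfl⟩
  have hρ : 0 < ρ := by rw [hρdef]; exact lt_min hρ₀ hρ₁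
  have hball : ∀ z ∈ K, Metric.ball z ρ ⊆ K' := by
    intro z hz y hy
    rw [hK']
    refine Metric.mem_cthickening_of_dist_le y z ρ₀ K hz ?_
    exact (Metric.mem_ball.1 hy).le.trans (by rw [hρdef]; exact min_le_left _ _)
  have huc : ∀ z ∈ K, ∀ y ∈ Metric.ball z ρ, C.u y ≤ C.u z * Real.exp (δ / 8) := by
    intro z hz y hy
    have hyK := hball z hz hy
    have h1 := hlog y hyK z (hKK' hz)
      (lt_of_lt_of_le (Metric.mem_ball.1 hy) (by rw [hρdef]; exact min_le_right _ _))
    rw [Real.dist_eq] at h1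
    have h2 := (abs_lt.1 h1).2
    have hy0 := u_pos h (hthick hyK)
    have hz0 := u_pos h (hthick (hKK' hz))
    rw [← Real.log_le_log_iff hy0 (by positivity), Real.log_mul hz0.ne' (Real.exp_pos _).ne',
      Real.log_exp]
    linarith
  -- lower bound of J, upper bound of u
  obtain ⟨zj, hzjK, hzj⟩ := hK'c.exists_isMinOn (hKne.mono hKK')
    ((cont_ev C.J).norm.continuousOn (s := K'))
  obtain ⟨j₀, hj₀⟩ : ∃ j₀, j₀ = ‖ev C.J zj‖ ^ 2 := ⟨_, rfl⟩
  have hj0 : 0 < j₀ := by
    rw [hj₀]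
    have := norm_pos_iff.2 (h.J0 zj (hthick hzjK))
    positivity
  have hJ : ∀ y ∈ K', j₀ ≤ ‖ev C.J y‖ ^ 2 := by
    intro y hy
    rw [hj₀]
    have h1 : ‖ev C.J zj‖ ≤ ‖ev C.J y‖ := isMinOn_iff.1 hzj y hy
    exact pow_le_pow_left₀ (norm_nonneg _) h1 2
  obtain ⟨zu, hzuK, hzu⟩ := hK'c.exists_isMaxOn (hKne.mono hKK') hucont
  obtain ⟨R, hR⟩ : ∃ R, R = C.u zu + 1 := ⟨_, rfl⟩
  have hR0 : 0 < R := by
    have := u_pos h (hthick hzuK)
    linarith
  have huR : ∀ y ∈ K', C.u y < R := by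
    intro y hy
    have h1 : C.u y ≤ C.u zu := isMaxOn_iff.1 hzu y hy
    linarith
  obtain ⟨c, hc0, hc⟩ := int_fin C.m hm2 R hR0
  have hπ := Real.pi_pos
  have hV0 : 0 < (Real.pi * ρ ^ 2) ^ C.m := by positivity
  -- the main estimate
  have hmain : ∀ (D : ℕ) (f : MvPolynomial (Fin C.m) ℂ), f ∈ C.R D → ∀ z ∈ K,
      (Real.pi * ρ ^ 2) ^ C.m * ‖ev f z‖ ^ 2 * (C.m * (2 * D + C.m - 1).factorial) ≤
        j₀⁻¹ * (C.u z * Real.exp (δ / 8)) ^ (2 * D) * c *
          nrm C.U C.u (fun z => ev f z * ev C.J z) := by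
    intro D f hf z hz
    obtain ⟨G, hG0, hG1, hG2⟩ := key h hS hM hV D f hf R c hc0 hc
    have hz0 := u_pos h (hthick (hKK' hz))
    have hdiff : DifferentiableOn ℂ (fun x => ev f x) (Metric.ball z ρ) := by
      exact (diff_ev f).differentiableOn
    have hint : IntegrableOn (fun x => ‖ev f x‖ ^ 2) (Metric.ball z ρ) := by
      have h1 : Continuous fun x : Fin C.m → ℂ => ‖ev f x‖ ^ 2 := (cont_ev f).norm.pow 2
      exact (h1.continuousOn.integrableOn_compact (isCompact_closedBall z ρ)).mono_set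
        Metric.ball_subset_closedBall
    have h1 := (hSup C.m z ρ hρ (fun x => ev f x) hdiff hint).2
    have h2 : ENNReal.ofReal (∫ x in Metric.ball z ρ, ‖ev f x‖ ^ 2) ≤
        ENNReal.ofReal (j₀⁻¹ * (C.u z * Real.exp (δ / 8)) ^ (2 * D) * (c * G)) := by
      rw [ofReal_integral_eq_lintegral_ofReal hint (Eventually.of_forall fun x => by positivity),
        ENNReal.ofReal_mul (by positivity)]
      have hms : MeasurableSet {z | z ∈ C.U ∧ psU C z < R} :=
        (isOpen_U C).measurableSet.inter (measurableSet_lt (meas_psU h) measurable_const)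
      have hden : Measurable fun z : Fin C.m → ℂ => ENNReal.ofReal (‖ev C.J z‖ ^ 2) :=
        ((cont_ev C.J).norm.measurable.pow_const 2).ennreal_ofReal
      calc ∫⁻ x in Metric.ball z ρ, ENNReal.ofReal (‖ev f x‖ ^ 2) ≤
          ∫⁻ x in Metric.ball z ρ, ENNReal.ofReal (j₀⁻¹ * (C.u z * Real.exp (δ / 8)) ^ (2 * D)) *
            (ENNReal.ofReal (‖ev C.J x‖ ^ 2) * gg C D f x) := by
            refine setLIntegral_mono' measurableSet_ball fun x hx => ?_
            have hxK := hball z hz hx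
            have hx0 := u_pos h (hthick hxK)
            unfold gg
            rw [psU_eq (hthick hxK), ← ENNReal.ofReal_mul (by positivity),
              ← ENNReal.ofReal_mul (by positivity)]
            apply ENNReal.ofReal_le_ofReal
            have g1 := hJ x hxK
            have g2 : C.u x ^ (2 * D) ≤ (C.u z * Real.exp (δ / 8)) ^ (2 * D) :=
              pow_le_pow_left₀ hx0.le (huc z hz x hx) _
            have g3 : 1 ≤ j₀⁻¹ * ‖ev C.J x‖ ^ 2 := by
              rw [inv_mul_eq_div, one_le_div hj0]; exact g1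
            have g4 : 1 ≤ (C.u z * Real.exp (δ / 8)) ^ (2 * D) / C.u x ^ (2 * D) := by
              rw [one_le_div (by positivity)]; exact g2
            calc ‖ev f x‖ ^ 2 = ‖ev f x‖ ^ 2 * (1 * 1) := by ring
              _ ≤ ‖ev f x‖ ^ 2 * ((j₀⁻¹ * ‖ev C.J x‖ ^ 2) *
                  ((C.u z * Real.exp (δ / 8)) ^ (2 * D) / C.u x ^ (2 * D))) := by gcongr
              _ = j₀⁻¹ * (C.u z * Real.exp (δ / 8)) ^ (2 * D) *
                  (‖ev C.J x‖ ^ 2 * (‖ev f x‖ ^ 2 / C.u x ^ (2 * D))) := by ring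
        _ = ENNReal.ofReal (j₀⁻¹ * (C.u z * Real.exp (δ / 8)) ^ (2 * D)) *
            ∫⁻ x in Metric.ball z ρ, ENNReal.ofReal (‖ev C.J x‖ ^ 2) * gg C D f x :=
            lintegral_const_mul _ (hden.mul (meas_gg h D f))
        _ ≤ ENNReal.ofReal (j₀⁻¹ * (C.u z * Real.exp (δ / 8)) ^ (2 * D)) *
            ENNReal.ofReal (c * G) := by
            gcongr
            refine le_trans ?_ hG2
            unfold Cone.nu
            rw [setLIntegral_withDensity_eq_setLIntegral_mul _ hden (meas_gg h D f) hms]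
            refine lintegral_mono_set ?_
            intro x hx
            have hxK := hball z hz hx
            refine ⟨hthick hxK, ?_⟩
            rw [psU_eq (hthick hxK)]
            exact huR x hxK
    rw [ENNReal.ofReal_le_ofReal_iff (by positivity)] at h2
    have h3 := h1.trans h2
    rw [hG1]
    have hfac : (0 : ℝ) ≤ C.m * (2 * D + C.m - 1).factorial := by positivity
    calc (Real.pi * ρ ^ 2) ^ C.m * ‖ev f z‖ ^ 2 * (C.m * (2 * D + C.m - 1).factorial) ≤
        j₀⁻¹ * (C.u z * Real.exp (δ / 8)) ^ (2 * D) * (c * G) *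
          (C.m * (2 * D + C.m - 1).factorial) := mul_le_mul_of_nonneg_right h3 hfac
      _ = _ := by ring
  obtain ⟨Q, hQ⟩ : ∃ Q : ℝ, Q = (Real.pi / 2) ^ C.m * (j₀⁻¹ * c) /
      ((Real.pi * ρ ^ 2) ^ C.m * C.m) := ⟨_, rfl⟩
  have hlim : Tendsto (fun D : ℕ => Real.exp (3 * δ / 4 * D)) atTop atTop :=
    Real.tendsto_exp_atTop.comp (tendsto_natCast_atTop_atTop.const_mul_atTop (by positivity))
  filter_upwards [hlim.eventually_ge_atTop Q, eventually_ge_atTop 1] with D hD hD1
  intro N s hs z hz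
  have hz0 := u_pos h (hthick (hKK' hz))
  obtain ⟨P, hP⟩ : ∃ P, P = ∑ j, ‖ev (s j) z‖ ^ 2 := ⟨_, rfl⟩
  have hP0 : 0 ≤ P := by
    rw [hP]
    exact Finset.sum_nonneg fun j _ => pow_nonneg (norm_nonneg _) 2
  obtain ⟨hfR, hfn⟩ := extremal h hM D N s hs (fun j => star (ev (s j) z))
  have hfn' : nrm C.U C.u (fun z' => ev (∑ j, MvPolynomial.C (star (ev (s j) z)) * s j) z' *
      ev C.J z') = P := by
    rw [hfn, hP]
    refine Finset.sum_congr rfl fun j _ => ?_
    rw [norm_star]
  have hfz : ‖ev (∑ j, MvPolynomial.C (star (ev (s j) z)) * s j) z‖ = P := by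
    have h1 : ev (∑ j, MvPolynomial.C (star (ev (s j) z)) * s j) z = (P : ℂ) := by
      have h2 : ev (∑ j, MvPolynomial.C (star (ev (s j) z)) * s j) z =
          ∑ j, star (ev (s j) z) * ev (s j) z := by
        simp [ev, map_sum]
      rw [h2, hP, Complex.ofReal_sum]
      refine Finset.sum_congr rfl fun j _ => ?_
      rw [mul_comm, Complex.star_def, Complex.mul_conj, Complex.normSq_eq_norm_sq]
    rw [h1, Complex.norm_real, Real.norm_of_nonneg hP0]
  have hmn := hmain D _ hfR z hz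
  rw [hfz, hfn'] at hmn
  have hfac : (0 : ℝ) < (2 * D + C.m - 1).factorial := by exact_mod_cast Nat.factorial_pos _
  have hexp : (C.u z * Real.exp (δ / 8)) ^ (2 * D) =
      C.u z ^ (2 * D) * Real.exp (δ / 4 * D) := by
    rw [mul_pow, ← Real.exp_nat_mul]
    congr 2
    push_cast
    ring
  rw [hexp] at hmn
  have hPle : P * (2 * D + C.m - 1).factorial ≤
      j₀⁻¹ * c * (C.u z ^ (2 * D) * Real.exp (δ / 4 * D)) / ((Real.pi * ρ ^ 2) ^ C.m * C.m) := by
    rw [le_div_iff₀ (by positivity)]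
    rcases hP0.eq_or_lt with h0 | h0
    · rw [← h0, zero_mul, zero_mul]; positivity
    · refine le_of_mul_le_mul_right ?_ h0
      calc P * (2 * D + C.m - 1).factorial * ((Real.pi * ρ ^ 2) ^ C.m * C.m) * P =
          (Real.pi * ρ ^ 2) ^ C.m * P ^ 2 * (C.m * (2 * D + C.m - 1).factorial) := by ring
        _ ≤ _ := hmn
        _ = _ := by ring
  have hDm : (1 : ℝ) ≤ (D : ℝ) ^ (C.m - 1) := one_le_pow₀ (by exact_mod_cast hD1)
  unfold Cone.berg
  rw [← hP]
  have hup : 0 < C.u z ^ (2 * D) := by positivity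
  calc (2 * D + C.m - 1).factorial * (Real.pi / 2) ^ C.m / (D : ℝ) ^ (C.m - 1) *
        (P / C.u z ^ (2 * D)) ≤
      (2 * D + C.m - 1).factorial * (Real.pi / 2) ^ C.m / 1 * (P / C.u z ^ (2 * D)) := by gcongr
    _ = (Real.pi / 2) ^ C.m * (P * (2 * D + C.m - 1).factorial) / C.u z ^ (2 * D) := by ring
    _ ≤ (Real.pi / 2) ^ C.m * (j₀⁻¹ * c * (C.u z ^ (2 * D) * Real.exp (δ / 4 * D)) /
        ((Real.pi * ρ ^ 2) ^ C.m * C.m)) / C.u z ^ (2 * D) := by gcongr
    _ = Q * Real.exp (δ / 4 * D) := by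
        rw [hQ]
        field_simp
    _ ≤ Real.exp (3 * δ / 4 * D) * Real.exp (δ / 4 * D) := by gcongr
    _ = Real.exp (δ * D) := by
        rw [← Real.exp_add]
        congr 1
        ring

end Pool.Agent.Helper47.KP
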